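import Mathlib
import Pool.Agent.H58.HagDefs
import Pool.Agent.H58.HagC5

set_option autoImplicit false

namespace Pool.Agent.Results.MP_13bed0_nt.Disproof

open Pool.Agent.H58.HagDefs Pool.Agent.H58.Hag Complex

lemma im_le {P : ℕ} {z : ℂ} {x : B} (h : mem P z x) :
    |z.re * 2 ^ P - x.re| ≤ x.r ∧ |z.im * 2 ^ P - x.im| ≤ x.r := by
  have e : (2 : ℂ) ^ P = ((2 ^ P : ℝ) : ℂ) := by simp
  refine ⟨le_trans (le_of_eq ?_) ((abs_re_le_norm _).trans h),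
    le_trans (le_of_eq ?_) ((abs_im_le_norm _).trans h)⟩ <;> rw [e] <;> simp [B.c, -ofReal_pow]

lemma cplx {Q e X X' : ℕ} {Y : ℤ} {b d : B}
    (h1 : mem Q (Xi 27 ((2 * Y + (X' - X) * I) / 2 ^ e)) b)
    (h2 : mem Q (Xi 27 ((2 * (Y + 256 : ℤ) + (X' - X) * I) / 2 ^ e)) d)
    (k1 : (3 * b.ub + d.r) * 2 ^ (2 * e) + 207360 * 512 ^ 2 * 2 ^ Q < d.im.natAbs * 2 ^ (2 * e))
    (k2 : X + 2 ^ 9 < X') (k3 : 2 * X' ≤ 2 * X + 2 ^ e) (k4 : 2048 ≤ 2 ^ e) (k5 : 256 ≤ Y)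
    (k6 : 2 * Y + 512 < 3144 * 2 ^ e) :
    ∃ w : ℂ, 0 ≤ w.re ∧ w.re < 3144 ∧ 0 < w.im ∧ Xi 27 w = 0 := by
  have hp : (0 : ℝ) < 2 ^ e := by positivity
  have e2 : (2 : ℂ) ^ e = ((2 ^ e : ℝ) : ℂ) := by simp
  obtain ⟨c, hc⟩ : ∃ c : ℂ, c = (2 * Y + (X' - X) * I) / 2 ^ e := ⟨_, rfl⟩
  have cr : c.re = 2 * Y / 2 ^ e := by rw [hc, e2, div_ofReal_re]; simp
  have ci : c.im = (X' - X) / 2 ^ e := by rw [hc, e2, div_ofReal_im]; simp
  have l2 : (X : ℝ) + 2 ^ 9 < X' := by exact_mod_cast k2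
  have l3 : (2 * X' : ℝ) ≤ 2 * X + 2 ^ e := by exact_mod_cast k3
  have l4 : (2048 : ℝ) ≤ 2 ^ e := by exact_mod_cast k4
  have l5 : (256 : ℝ) ≤ Y := by exact_mod_cast k5
  have l6 : (2 * Y + 512 : ℝ) < 3144 * 2 ^ e := by exact_mod_cast k6
  have i1 : 512 / 2 ^ e < c.im := by rw [ci]; gcongr; linarith
  have i2 : c.im ≤ 1 / 2 := by rw [ci, div_le_iff₀ hp]; linarith
  have i0 : (0 : ℝ) < 512 / 2 ^ e := by positivity
  have hs : ∀ z ∈ Metric.ball c (1 / 2), |z.im| < 1 := fun z hz => by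
    have := (abs_im_le_norm _).trans_lt (mem_ball_iff_norm.1 hz)
    rw [sub_im, abs_lt] at this
    exact abs_lt.2 ⟨by linarith, by linarith⟩
  obtain ⟨w, w1, w2⟩ := zero_near (f := Xi 27) (c := c) (M := 240 * (27 : ℕ)) (δ := 512 / 2 ^ e)
    (fun z hz => (Xi_diff 27 (hs z hz)).differentiableWithinAt) (fun z hz => Xi_bd 27 (hs z hz).le)
    i0 (by rw [div_lt_iff₀ hp]; linarith) (by
      rw [← hc] at h1
      rw [show (2 * ((Y + 256 : ℤ) : ℂ) + (X' - X) * I) / 2 ^ e = c + (512 / 2 ^ e : ℝ) by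
        rw [hc]; push_cast; ring] at h2
      have a1 := h1.norm_le
      have a2 := abs_sub_abs_le_abs_sub (d.im : ℝ) ((Xi 27 (c + (512 / 2 ^ e : ℝ))).im * 2 ^ Q)
      rw [abs_sub_comm, abs_mul, abs_of_pos (a := (2 : ℝ) ^ Q) (by positivity)] at a2
      have a3 := mul_le_mul_of_nonneg_right (abs_im_le_norm (Xi 27 (c + (512 / 2 ^ e : ℝ))))
        (show (0 : ℝ) ≤ 2 ^ Q by positivity)
      have a4 : ((3 * b.ub + d.r) * 2 ^ (2 * e) + 207360 * 512 ^ 2 * 2 ^ Q : ℝ) <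
          |(d.im : ℝ)| * 2 ^ (2 * e) := by
        rw [← Int.cast_abs, ← Nat.cast_natAbs]; exact_mod_cast k1
      have a5 : (3 * b.ub + d.r + 207360 * (512 / 2 ^ e) ^ 2 * 2 ^ Q : ℝ) < |(d.im : ℝ)| :=
        lt_of_mul_lt_mul_right (a := (2 : ℝ) ^ (2 * e)) (lt_of_eq_of_lt (by field_simp; ring) a4)
          (by positivity)
      refine lt_of_mul_lt_mul_right (a := (2 : ℝ) ^ Q) ?_ (by positivity)
      push_cast at *
      linarith [(im_le h2).2])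
  have r1 := abs_le.1 ((abs_re_le_norm _).trans w1)
  have r2 := abs_le.1 ((abs_im_le_norm _).trans w1)
  rw [sub_re, cr] at r1
  rw [sub_im] at r2
  have r3 : (512 : ℝ) / 2 ^ e ≤ 2 * Y / 2 ^ e := by gcongr; linarith
  have r4 : (2 * Y + 512 : ℝ) / 2 ^ e < 3144 := by rwa [div_lt_iff₀ hp]
  rw [add_div] at r4
  exact ⟨w, by linarith, by linarith, by linarith, w2⟩

theorem result : ∃ N : ℕ, 1 ≤ N ∧ ∃ α β : ℂ, 0 ≤ α.re ∧ 0 ≤ α.im ∧ 0 ≤ β.re ∧ 0 ≤ β.im ∧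
    Xi N α = 0 ∧ Xi N β = 0 ∧ α.re < β.re ∧ β.im < α.im ∧ β.im = 0 := by
  have hc := val_mem pi_ok p1_ok (X := cX) (X' := cX') (Y := cY) (by decide +kernel)
    (by decide +kernel) (by decide +kernel) p1_log c1O c2O
  have hd := val_mem pi_ok p1_ok (X := cX) (X' := cX') (Y := dY) (by decide +kernel)
    (by decide +kernel) (by decide +kernel) p1_log d1O d2O
  have hu := val_mem pi_ok p2_ok (X := 64) (X' := 64) (Y := 402496) (by decide +kernel)
    (by decide +kernel) (by decide +kernel) p2_log u1O u2O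
  have hv := val_mem pi_ok p2_ok (X := 64) (X' := 64) (Y := 402592) (by decide +kernel)
    (by decide +kernel) (by decide +kernel) p2_log v1O v2O
  rw [c1A, c1B, c1C, c1L, c2A, c2B, c2C, c2L] at hc
  rw [d1A, d1B, d1C, d1L, d2A, d2B, d2C, d2L, show dY = cY + 256 by decide +kernel] at hd
  rw [u1A, u1B, u1C, u1L, u2L] at hu
  rw [v1A, v1B, v1C, v1L, v2L] at hv
  obtain ⟨α, a1, a2, a3, a4⟩ := cplx hc hd (by decide +kernel) (by decide +kernel)
    (by decide +kernel) (by decide +kernel) (by decide +kernel) (by decide +kernel)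
  have sg : ∀ {z : ℂ} {x : B}, mem p2.Q z x → (x.re + x.r < 0 → z.re < 0) ∧ (x.r < x.re → 0 < z.re) :=
    fun {z x} h => by
      have := abs_le.1 (im_le h).1
      have hp : (0 : ℝ) < 2 ^ p2.Q := by positivity
      refine ⟨fun k => ?_, fun k => ?_⟩
      · have : (x.re + x.r : ℝ) < 0 := by exact_mod_cast k
        by_contra! hz; nlinarith [mul_nonneg hz hp.le]
      · have : (x.r : ℝ) < x.re := by exact_mod_cast k
        by_contra! hz; nlinarith [mul_nonneg (neg_nonneg.2 hz) hp.le]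
  have s1 := (sg hu).1 (by decide +kernel)
  have s2 := (sg hv).2 (by decide +kernel)
  rw [show p2.e = 8 from rfl, sub_self, zero_mul, add_zero] at s1 s2
  rw [show (2 * ((402496 : ℤ) : ℂ)) / 2 ^ 8 = ((6289 / 2 : ℝ) : ℂ) by push_cast; norm_num] at s1
  rw [show (2 * ((402592 : ℤ) : ℂ)) / 2 ^ 8 = ((12581 / 4 : ℝ) : ℂ) by push_cast; norm_num] at s2
  have ct : Continuous fun x : ℝ => (Xi 27 x).re := continuous_re.comp
    (continuous_iff_continuousAt.2 fun x => (Xi_diff 27 (by simp)).continuousAt.comp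
      continuous_ofReal.continuousAt)
  obtain ⟨x, hx, hx0⟩ := intermediate_value_Icc (show (6289 / 2 : ℝ) ≤ 12581 / 4 by norm_num)
    ct.continuousOn ⟨s1.le, s2.le⟩
  have := hx.1
  exact ⟨27, by norm_num, α, x, a1, a3.le, by simp; linarith, by simp, a4,
    Complex.ext hx0 (Xi_real 27 x), by simp; linarith, by simpa using a3, by simp⟩

end Pool.Agent.Results.MP_13bed0_nt.Disproof
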